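import Pool.Agent.helper70.LE.SpecN
import Pool.Agent.helper59.FI.Base

/-!
# Row OM3 of project LE (MP_baa4d7_al)
-/

set_option autoImplicit false

namespace Pool.Agent.LE

open Pool.Agent.helper58.DC Pool.Agent.DI Pool.Agent.GR Pool.Agent.OB Pool.Agent.DR Pool.Agent.FI Pool.Agent.FI3 Pool.Agent.FI4

theorem OM3_main (hREC : REC_stmt) (hKKF : KKF_stmt) (hHIB : HIB_stmt) (hNYT : NYT_stmt) (n : ℕ) :
    ∀ (p : ℕ) (M : Ideal (integralClosure ℤ ℂ)), Setup p M → ∀ (G : Type) [Group G] [Finite G]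
    (D : Subgroup G) (x : G) (θ χ : G → ℂ), LoA p M D x θ χ → ∀ Q ≤ D, Nat.card (cz Q) ≤ n → RP M D θ Q →
    ∀ a ∈ TT M D θ, a ∈ nz Q →
    ∀ y ∈ TT M D θ, y ∈ nz Q → a * y * a⁻¹ * y⁻¹ ∈ cz D →
    om p (cz Q) (eBl M (cz Q) θ) a y = (starRingEnd ℂ) (om p (cz Q) (eBl M (cz Q) θ) y a) := by
  induction n with
  | zero =>
    intro p M hS G _ _ D x θ χ hL Q hQ hn
    have : 0 < Nat.card (cz Q) := Nat.card_pos
    omega
  | succ n ih =>
    intro p M hS G _ _ D x θ χ hL Q hQ hn hRP a ha haQ y hy hyQ hc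
    have hNa := hNYT p M hS G D x θ χ hL Q hQ a ha haQ
    have hNy := hNYT p M hS G D x θ χ hL Q hQ y hy hyQ
    obtain ⟨-, -, -, -, -, -, hK7⟩ := hKKF G (cz Q) a hNa.1.nor
    have h7 := hK7 (eBl M (cz Q) θ) (hHIB p M hS G (cz Q) θ).1.her y
    have r1 := hREC p M hS G D x θ χ hL Q hQ hRP a ha haQ y hy hyQ hc
    have hc' : y * a * y⁻¹ * a⁻¹ ∈ cz D := by
      have e : y * a * y⁻¹ * a⁻¹ = (a * y * a⁻¹ * y⁻¹)⁻¹ := by group
      rw [e]
      exact inv_mem hc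
    have r2 := hREC p M hS G D x θ χ hL Q hQ hRP y hy hyQ a ha haQ hc'
    have hset : {u : G | u ∈ D ∧ y * u = u * y ∧ a * u = u * a} =
        {u : G | u ∈ D ∧ a * u = u * a ∧ y * u = u * y} := by
      ext u
      exact ⟨fun h => ⟨h.1, h.2.2, h.2.1⟩, fun h => ⟨h.1, h.2.2, h.2.1⟩⟩
    rw [r1, r2, hset, finsum_mem_eq_finite_toFinset_sum _ (Set.toFinite _),
      finsum_mem_eq_finite_toFinset_sum _ (Set.toFinite _), map_sum, ← sub_eq_zero, ← Finset.sum_sub_distrib] at h7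
    classical
    obtain ⟨F, hF⟩ : ∃ F : Finset G, F = (Set.toFinite {u : G | u ∈ D ∧ a * u = u * a ∧ y * u = u * y}).toFinset :=
      ⟨_, rfl⟩
    have hFm : ∀ u, u ∈ F ↔ (u ∈ D ∧ a * u = u * a ∧ y * u = u * y) := by
      intro u
      rw [hF, Set.Finite.mem_toFinset]
      rfl
    rw [← hF] at h7
    have hterm : ∀ u ∈ F, om p (Cz (cz Q) u) (eBl M (Cz (cz Q) u) θ) a y -
        (starRingEnd ℂ) (om p (Cz (cz Q) u) (eBl M (Cz (cz Q) u) θ) y a) =
        if Cz (cz Q) u = cz Q then om p (cz Q) (eBl M (cz Q) θ) a y -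
          (starRingEnd ℂ) (om p (cz Q) (eBl M (cz Q) θ) y a) else 0 := by
      intro u hu
      rw [hFm] at hu
      obtain ⟨huD, hau, hyu⟩ := hu
      split_ifs with h
      · rw [h]
      · rw [sub_eq_zero]
        have hle : Cz (cz Q) u ≤ cz Q := inf_le_left
        have hlt : Nat.card (Cz (cz Q) u) < Nat.card (cz Q) := by
          by_contra hcon
          exact h (Subgroup.eq_of_le_of_card_ge hle (not_lt.1 hcon))
        have e := cz_sup_zpowers Q u
        have hQ' : Q ⊔ Subgroup.zpowers u ≤ D := sup_le hQ ((Subgroup.zpowers_le).2 huD)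
        have := ih p M hS G D x θ χ hL (Q ⊔ Subgroup.zpowers u) hQ' (by rw [e]; omega)
          (hNa.2.2 hRP _ hQ' le_sup_left) a ha (hNa.2.1 u huD hau).2 y hy (hNy.2.1 u huD hyu).2 hc
        rwa [e] at this
    rw [Finset.sum_congr rfl hterm, ← Finset.sum_filter, Finset.sum_const, nsmul_eq_mul, mul_eq_zero] at h7
    rcases h7 with h7 | h7
    · exfalso
      rw [Nat.cast_eq_zero, Finset.card_eq_zero] at h7
      have h1 : (1 : G) ∈ F.filter (fun u => Cz (cz Q) u = cz Q) := by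
        rw [Finset.mem_filter, hFm]
        refine ⟨⟨one_mem D, by simp, by simp⟩, ?_⟩
        ext z
        rw [mem_Cz]
        simp
      rw [h7] at h1
      simp at h1
    · exact sub_eq_zero.1 h7

theorem OM3 (hREC : REC_stmt) (hKKF : KKF_stmt) (hHIB : HIB_stmt) (hNYT : NYT_stmt) : OM3_stmt := by
  intro p M hS G _ _ D x θ χ hL Q hQ hRP a ha haQ y hy hyQ hc
  exact OM3_main hREC hKKF hHIB hNYT _ p M hS G D x θ χ hL Q hQ le_rfl hRP a ha haQ y hy hyQ hc

end Pool.Agent.LE
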